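import Mathlib
import Pool.Agent.N829.TV.Main
import Pool.Agent.N829.TV.GL

/-!
# Tate cohomology of admissible representations is admissible

Let `F` be a nonarchimedean local field of residue characteristic `ℓ ≠ p` (for example a local function
field of characteristic `ℓ ≠ p`), `G` a closed subgroup of `GL_n(F)` (for example the group of
`F`-points of a reductive group), `σ` a continuous automorphism of `G` with `σ ^ p = 1`, and `ρ` an
admissible representation of `G` over a field `k` of characteristic `p`, with an extension to
`G ⋊ ⟨σ⟩`. Then `T⁰(ρ)` and `T¹(ρ)` are admissible representations of `G ^ σ`.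

The proof: if `K` is a `σ`-stable compact open subgroup of pro-order prime to `p` and the class of
`x` in `T⁰` or `T¹` is fixed by `K ^ σ`, then averaging over `K` does not change this class, as the
cosets which are not fixed by `σ` contribute norms (or elements of `(1 - σ) V`) and the fixed cosets
contain `σ`-fixed elements. So the classes fixed by `K ^ σ` come from the finite-dimensional space of
vectors fixed by `K`.
-/

set_option autoImplicit false

open Pool.Agent.N829.TV

namespace Pool.Agent.Results.MP_60b77b_nt.AdmissibleTate

theorem result (p ℓ : ℕ) [Fact p.Prime] [Fact ℓ.Prime] (hne : ℓ ≠ p)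
    (F : Type*) [NontriviallyNormedField F] [IsUltrametricDist F] [LocallyCompactSpace F]
    (hF : ‖(ℓ : F)‖ < 1)
    (n : ℕ) (G : Subgroup (GL (Fin n) F)) (hG : IsClosed (G : Set (GL (Fin n) F)))
    (σ : G →* G) (hσ : Continuous σ) (hσp : ∀ g, σ^[p] g = g)
    (k : Type*) [Field k] [CharP k p] (V : Type*) [AddCommGroup V] [Module k V]
    (ρ : Representation k G V) (hρ : Admissible ρ)
    (S : Module.End k V) (hS : IsExtension p σ ρ S) :
    Admissible (T0 hS) ∧ Admissible (T1 hS) := by
  have : ProperSpace F := ProperSpace.of_locallyCompactSpace F
  exact admissible_T hS hρ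
    (fun _ hU => exists_primeTo (Fact.out : p.Prime) (Fact.out : ℓ.Prime) hne hF hG hU) hσ hσp

end Pool.Agent.Results.MP_60b77b_nt.AdmissibleTate
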